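import Pool.Agent.helper59.GF.Spec

/-!
# gf:BOO
-/

set_option autoImplicit false

namespace Pool.Agent.GF

open Filter Topology

theorem BOO : BOO_stmt := by
  intro p V ι ι' τ τ' _ _ _ _ s s' x ξ a b c sl e B w I hI
  obtain ⟨f, hf⟩ := hI
  let S : (Fin (p + 2) → τ × τ') → ℝ := fun T => ∑ r, mu p (s ∘ I) r *
    f (x (T r).1 (I r), a (T r).1 + x (T r).1 (I r) • b (T r).1 + c (T r).1 (Yl p (s (I r))))
  let C : (Fin (p + 2) → τ × τ') → ℝ := fun T => ∑ r, mu p (s ∘ I) r *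
    (x (T r).1 (I r) * sl (T r).2 * f (0, w))
  have hpos : ∀ T, 0 < S T := fun T => hf (fun r => (T r).1)
  have hev : ∀ T : Fin (p + 2) → τ × τ', ∀ᶠ η in 𝓝[>] (0 : ℝ), 0 < S T - η * C T := by
    intro T
    have h1 : Tendsto (fun η : ℝ => S T - η * C T) (𝓝[>] (0 : ℝ)) (𝓝 (S T)) := by
      have h2 : Tendsto (fun η : ℝ => S T - η * C T) (𝓝 (0 : ℝ)) (𝓝 (S T - 0 * C T)) :=
        tendsto_const_nhds.sub (tendsto_id.mul_const _)
      rw [zero_mul, sub_zero] at h2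
      exact h2.mono_left nhdsWithin_le_nhds
    exact h1.eventually_const_lt (hpos T)
  filter_upwards [eventually_all.2 hev] with η hη κ L
  refine ⟨f ∘ₗ (LinearMap.prodMap LinearMap.id (LinearMap.fst ℝ V ℝ)), fun T => ?_⟩
  have h3 := hη T
  refine lt_of_lt_of_eq h3 ?_
  show (∑ r, mu p (s ∘ I) r *
    f (x (T r).1 (I r), a (T r).1 + x (T r).1 (I r) • b (T r).1 + c (T r).1 (Yl p (s (I r)))))
    - η * (∑ r, mu p (s ∘ I) r * (x (T r).1 (I r) * sl (T r).2 * f (0, w))) = _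
  rw [Finset.mul_sum, ← Finset.sum_sub_distrib]
  apply Finset.sum_congr rfl
  intro r _
  show _ = mu p (s ∘ I) r * f (x (T r).1 (I r), a (T r).1 + x (T r).1 (I r) •
    (b (T r).1 - (η * sl (T r).2) • w) + c (T r).1 (Yl p (s (I r))))
  have h4 : ((x (T r).1 (I r), a (T r).1 + x (T r).1 (I r) •
      (b (T r).1 - (η * sl (T r).2) • w) + c (T r).1 (Yl p (s (I r)))) : ℝ × V)
      = (x (T r).1 (I r), a (T r).1 + x (T r).1 (I r) • b (T r).1 + c (T r).1 (Yl p (s (I r))))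
        - (x (T r).1 (I r) * (η * sl (T r).2)) • ((0 : ℝ), w) := by
    refine Prod.ext ?_ ?_
    · simp
    · simp only [Prod.snd_sub, Prod.smul_snd]
      module
  rw [h4, map_sub, map_smul, smul_eq_mul]
  ring

end Pool.Agent.GF
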